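import Pool.Agent.Helper89.TQ.Spec

/-! TQ, part BRIDGE (MP_5465ec_co Q2) -/

set_option autoImplicit false

namespace Pool.Agent.Helper57.TQ.BRIDGE

open Finset Pool.Agent.R6.Trade Pool.Agent.Helper89.TQ

section

variable {N : Type} [Fintype N] [DecidableEq N]

theorem vec_insert' (τ : N → Fin 3) {S : Finset N} {v : N} (hv : v ∉ S) (l : Fin 3) :
    vec τ (insert v S) l = vec τ S l + if l = τ v then 1 else 0 := by
  unfold vec
  rw [filter_insert]
  by_cases h : τ v = l
  · rw [if_pos h, if_pos h.symm, card_insert_of_notMem]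
    intro h2
    exact hv (mem_filter.1 h2).1
  · rw [if_neg h, if_neg (fun h2 => h h2.symm), add_zero]

theorem vec_le (τ : N → Fin 3) (S : Finset N) (l : Fin 3) : vec τ S l ≤ nn τ l :=
  card_le_card (filter_subset_filter _ (subset_univ S))

theorem exists_out (τ : N → Fin 3) {S : Finset N} {i : Fin 3} (h : vec τ S i < nn τ i) :
    ∃ v, v ∉ S ∧ τ v = i := by
  by_contra hcon
  push Not at hcon
  have h1 : univ.filter (fun v => τ v = i) ⊆ S.filter (fun v => τ v = i) := by
    intro v hv
    have h2 := (mem_filter.1 hv).2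
    refine mem_filter.2 ⟨?_, h2⟩
    by_contra h3
    exact hcon v h3 h2
  have h2 := card_le_card h1
  unfold vec nn at h
  omega

theorem exists_in (τ : N → Fin 3) {S : Finset N} {j : Fin 3} (h : 0 < vec τ S j) :
    ∃ v ∈ S, τ v = j := by
  obtain ⟨v, hv⟩ := card_pos.1 h
  exact ⟨v, (mem_filter.1 hv).1, (mem_filter.1 hv).2⟩

theorem add_step {W : Finset N → Prop} (hmono : ∀ S T : Finset N, S ⊆ T → W S → W T)
    (τ : N → Fin 3) {S : Finset N} {i : Fin 3} (h : vec τ S i < nn τ i) (hW : W S) :
    ∃ S', W S' ∧ ∀ l, vec τ S' l = vec τ S l + if l = i then 1 else 0 := by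
  obtain ⟨v, hv, rfl⟩ := exists_out τ h
  exact ⟨insert v S, hmono _ _ (subset_insert _ _) hW, fun l => vec_insert' τ hv l⟩

theorem swap_step {W : Finset N → Prop} (τ : N → Fin 3)
    (hτ : ∀ u v, τ u ≤ τ v → AtLeast W u v) {S : Finset N} {i j : Fin 3} (hij : i < j)
    (h : vec τ S i < nn τ i) (hj : 0 < vec τ S j) (hW : W S) :
    ∃ S', W S' ∧ ∀ l, vec τ S' l + (if l = j then 1 else 0) = vec τ S l + if l = i then 1 else 0 := by
  obtain ⟨v, hv, rfl⟩ := exists_out τ h
  obtain ⟨u, hu, rfl⟩ := exists_in τ hj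
  have h1 : v ∉ S.erase u := fun h2 => hv (mem_of_mem_erase h2)
  have h2 : u ∉ S.erase u := notMem_erase u S
  refine ⟨insert v (S.erase u), hτ v u hij.le (S.erase u) h1 h2 (by rwa [insert_erase hu]), fun l => ?_⟩
  have h3 := vec_insert' τ h2 l
  rw [insert_erase hu] at h3
  rw [vec_insert' τ h1 l, h3]
  omega

theorem shift {W : Finset N → Prop} (hmono : ∀ S T : Finset N, S ⊆ T → W S → W T)
    (τ : N → Fin 3) (hτ : ∀ u v, τ u ≤ τ v → AtLeast W u v) (T : Finset N) :
    ∀ (k : ℕ) (S : Finset N),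
      3 * vec τ T 0 + 2 * vec τ T 1 + vec τ T 2 = 3 * vec τ S 0 + 2 * vec τ S 1 + vec τ S 2 + k →
      GE (vec τ T) (vec τ S) → W S → W T := by
  intro k
  induction k using Nat.strong_induction_on with
  | _ k ih =>
    intro S hk hGE hW
    obtain ⟨g0, g1, g2⟩ := hGE
    have n0 := vec_le τ T 0
    have n1 := vec_le τ T 1
    have n2 := vec_le τ T 2
    -- a helper: continue from `S'`
    have go : ∀ S' : Finset N, W S' →
        vec τ S' 0 ≤ vec τ T 0 → vec τ S' 0 + vec τ S' 1 ≤ vec τ T 0 + vec τ T 1 →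
        vec τ S' 0 + vec τ S' 1 + vec τ S' 2 ≤ vec τ T 0 + vec τ T 1 + vec τ T 2 →
        3 * vec τ S 0 + 2 * vec τ S 1 + vec τ S 2 < 3 * vec τ S' 0 + 2 * vec τ S' 1 + vec τ S' 2 →
        W T := by
      intro S' hW' a0 a1 a2 a3
      refine ih (3 * vec τ T 0 + 2 * vec τ T 1 + vec τ T 2 -
        (3 * vec τ S' 0 + 2 * vec τ S' 1 + vec τ S' 2)) ?_ S' ?_ ⟨a0, a1, a2⟩ hW'
      · omega
      · omega
    by_cases c0 : vec τ S 0 < vec τ T 0
    · by_cases c1 : vec τ S 0 + vec τ S 1 < vec τ T 0 + vec τ T 1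
      · by_cases c2 : vec τ S 0 + vec τ S 1 + vec τ S 2 < vec τ T 0 + vec τ T 1 + vec τ T 2
        · obtain ⟨S', hW', hv⟩ := add_step hmono τ (i := 0) (by omega) hW
          have v0 := hv 0; have v1 := hv 1; have v2 := hv 2
          simp at v0 v1 v2
          exact go S' hW' (by omega) (by omega) (by omega) (by omega)
        · obtain ⟨S', hW', hv⟩ := swap_step τ hτ (i := 0) (j := 2) (by decide) (by omega) (by omega) hW
          have v0 := hv 0; have v1 := hv 1; have v2 := hv 2
          simp at v0 v1 v2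
          exact go S' hW' (by omega) (by omega) (by omega) (by omega)
      · obtain ⟨S', hW', hv⟩ := swap_step τ hτ (i := 0) (j := 1) (by decide) (by omega) (by omega) hW
        have v0 := hv 0; have v1 := hv 1; have v2 := hv 2
        simp at v0 v1 v2
        exact go S' hW' (by omega) (by omega) (by omega) (by omega)
    · by_cases c1 : vec τ S 0 + vec τ S 1 < vec τ T 0 + vec τ T 1
      · by_cases c2 : vec τ S 0 + vec τ S 1 + vec τ S 2 < vec τ T 0 + vec τ T 1 + vec τ T 2
        · obtain ⟨S', hW', hv⟩ := add_step hmono τ (i := 1) (by omega) hW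
          have v0 := hv 0; have v1 := hv 1; have v2 := hv 2
          simp at v0 v1 v2
          exact go S' hW' (by omega) (by omega) (by omega) (by omega)
        · obtain ⟨S', hW', hv⟩ := swap_step τ hτ (i := 1) (j := 2) (by decide) (by omega) (by omega) hW
          have v0 := hv 0; have v1 := hv 1; have v2 := hv 2
          simp at v0 v1 v2
          exact go S' hW' (by omega) (by omega) (by omega) (by omega)
      · by_cases c2 : vec τ S 0 + vec τ S 1 + vec τ S 2 < vec τ T 0 + vec τ T 1 + vec τ T 2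
        · obtain ⟨S', hW', hv⟩ := add_step hmono τ (i := 2) (by omega) hW
          have v0 := hv 0; have v1 := hv 1; have v2 := hv 2
          simp at v0 v1 v2
          exact go S' hW' (by omega) (by omega) (by omega) (by omega)
        · have e : vec τ S = vec τ T := by
            funext l
            fin_cases l
            · show vec τ S 0 = vec τ T 0
              omega
            · show vec τ S 1 = vec τ T 1
              omega
            · show vec τ S 2 = vec τ T 2
              omega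
          exact win_of_vec_eq hmono τ (fun u v h => hτ u v h.le) _ S T rfl e hW

theorem win_iff {W : Finset N → Prop} (hmono : ∀ S T : Finset N, S ⊆ T → W S → W T)
    (τ : N → Fin 3) (hτ : ∀ u v, τ u ≤ τ v → AtLeast W u v) {a b : Fin 3 → ℕ}
    (hmin : ∀ v, MinWin W τ v ↔ v = a ∨ v = b) (S : Finset N) : W S ↔ Win a b (vec τ S) := by
  constructor
  · intro hW
    have key : ∀ (k : ℕ) (S : Finset N), 3 * vec τ S 0 + 2 * vec τ S 1 + vec τ S 2 = k → W S →
        Win a b (vec τ S) := by
      intro k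
      induction k using Nat.strong_induction_on with
      | _ k ih =>
        intro S hk hW
        by_cases hm : MinWin W τ (vec τ S)
        · rcases (hmin _).1 hm with h | h
          · exact Or.inl (by rw [h]; exact ⟨le_rfl, le_rfl, le_rfl⟩)
          · exact Or.inr (by rw [h]; exact ⟨le_rfl, le_rfl, le_rfl⟩)
        · have h1 : ∃ S', W S' ∧ GE (vec τ S) (vec τ S') ∧ vec τ S' ≠ vec τ S := by
            by_contra hcon
            push Not at hcon
            exact hm ⟨⟨S, hW, rfl⟩, fun S' hS' hG => hcon S' hS' hG⟩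
          obtain ⟨S', hW', ⟨g0, g1, g2⟩, hne⟩ := h1
          have hlt : 3 * vec τ S' 0 + 2 * vec τ S' 1 + vec τ S' 2 < k := by
            by_contra hcon
            apply hne
            funext l
            fin_cases l
            · show vec τ S' 0 = vec τ S 0
              omega
            · show vec τ S' 1 = vec τ S 1
              omega
            · show vec τ S' 2 = vec τ S 2
              omega
          rcases ih _ hlt S' rfl hW' with ⟨q0, q1, q2⟩ | ⟨q0, q1, q2⟩
          · exact Or.inl ⟨by omega, by omega, by omega⟩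
          · exact Or.inr ⟨by omega, by omega, by omega⟩
    exact key _ S rfl hW
  · intro h
    have main : ∀ c : Fin 3 → ℕ, MinWin W τ c → GE (vec τ S) c → W S := by
      intro c hc hG
      obtain ⟨⟨S₀, hW₀, rfl⟩, -⟩ := hc
      obtain ⟨g0, g1, g2⟩ := hG
      refine shift hmono τ hτ S (3 * vec τ S 0 + 2 * vec τ S 1 + vec τ S 2 -
        (3 * vec τ S₀ 0 + 2 * vec τ S₀ 1 + vec τ S₀ 2)) S₀ (by omega) ⟨g0, g1, g2⟩ hW₀
    rcases h with h | h
    · exact main a ((hmin a).2 (Or.inl rfl)) h
    · exact main b ((hmin b).2 (Or.inr rfl)) h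

end

theorem main : S_BRIDGE := by
  intro N _ _ W τ a b hW hsur hτ hab hmin
  obtain ⟨-, -, hmono⟩ := hW
  have hτ' : ∀ u v, τ u ≤ τ v → AtLeast W u v := fun u v => (hτ u v).2
  have hiff := win_iff hmono τ hτ' hmin
  obtain ⟨⟨Sa, hWa, hva⟩, hmina⟩ := (hmin a).2 (Or.inl rfl)
  obtain ⟨⟨Sb, hWb, hvb⟩, hminb⟩ := (hmin b).2 (Or.inr rfl)
  refine ⟨fun i => ?_, fun i => ?_, fun h => ?_, fun h => ?_, ?_, ?_, hiff⟩
  · rw [← hva]
    exact vec_le τ Sa i
  · rw [← hvb]
    exact vec_le τ Sb i
  · apply hab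
    rw [← hmina Sb hWb (by rw [hvb]; exact h), hvb]
  · apply hab
    rw [← hminb Sa hWa (by rw [hva]; exact h), hva]
  · obtain ⟨u, hu⟩ := hsur 0
    obtain ⟨v, hv⟩ := hsur 1
    have h1 : ¬ AtLeast W v u := by
      rw [hτ, hu, hv]
      decide
    unfold AtLeast at h1
    push Not at h1
    obtain ⟨S, hvS, huS, hWu, hWv⟩ := h1
    rw [hiff] at hWu hWv
    have u0 := vec_insert' τ huS 0
    have u1 := vec_insert' τ huS 1
    have u2 := vec_insert' τ huS 2
    have v0 := vec_insert' τ hvS 0
    have v1 := vec_insert' τ hvS 1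
    have v2 := vec_insert' τ hvS 2
    have hn := vec_le τ (insert v S) 1
    rw [hu] at u0 u1 u2
    rw [hv] at v0 v1 v2
    simp at u0 u1 u2 v0 v1 v2
    unfold Win GE at hWu hWv
    rw [u0, u1, u2] at hWu
    rw [v0, v1, v2] at hWv
    rw [v1] at hn
    omega
  · obtain ⟨u, hu⟩ := hsur 1
    obtain ⟨v, hv⟩ := hsur 2
    have h1 : ¬ AtLeast W v u := by
      rw [hτ, hu, hv]
      decide
    unfold AtLeast at h1
    push Not at h1
    obtain ⟨S, hvS, huS, hWu, hWv⟩ := h1
    rw [hiff] at hWu hWv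
    have u0 := vec_insert' τ huS 0
    have u1 := vec_insert' τ huS 1
    have u2 := vec_insert' τ huS 2
    have v0 := vec_insert' τ hvS 0
    have v1 := vec_insert' τ hvS 1
    have v2 := vec_insert' τ hvS 2
    have hn := vec_le τ (insert v S) 2
    rw [hu] at u0 u1 u2
    rw [hv] at v0 v1 v2
    simp at u0 u1 u2 v0 v1 v2
    unfold Win GE at hWu hWv
    rw [u0, u1, u2] at hWu
    rw [v0, v1, v2] at hWv
    rw [v2] at hn
    omega

end Pool.Agent.Helper57.TQ.BRIDGE
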